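import Pool.Agent.W34.PC.Conv

set_option autoImplicit false

namespace Pool.Agent.W34.PC

open Finset

/-- the coordinate law after `k` steps -/
noncomputable def w (m k : ℕ) (x : Multiplicative (ZMod m)) : ℝ :=
  (1 / 2) ^ k * (if x = 1 then 1 else 0) + (1 - (1 / 2) ^ k) / m

/-- the product law after `k` steps -/
noncomputable def Q (m k : ℕ) (g : Fin m → Multiplicative (ZMod m)) : ℝ := ∏ j, w m k (g j)

/-- the step law -/
noncomputable def st (m : ℕ) (δ : ℝ) (g : Fin m → Multiplicative (ZMod m)) : ℝ :=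
  (1 - δ) * (∏ j, w m 1 (g j)) + δ / ((m : ℝ) ^ m)

variable {m : ℕ}

lemma card_G [NeZero m] : (Fintype.card (Fin m → Multiplicative (ZMod m)) : ℝ) = (m : ℝ) ^ m := by
  rw [Fintype.card_fun, Fintype.card_fin, Fintype.card_multiplicative, ZMod.card]
  push_cast; rfl

lemma w_sum [NeZero m] (k : ℕ) : ∑ x, w m k x = 1 := by
  have hm : (m : ℝ) ≠ 0 := by exact_mod_cast NeZero.ne m
  unfold w
  rw [Finset.sum_add_distrib, ← Finset.mul_sum, Finset.sum_ite_eq' univ (1 : Multiplicative (ZMod m)),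
    if_pos (Finset.mem_univ _), Finset.sum_const, Finset.card_univ, Fintype.card_multiplicative,
    ZMod.card, nsmul_eq_mul]
  field_simp
  ring

lemma w_nonneg (k : ℕ) (x : Multiplicative (ZMod m)) : 0 ≤ w m k x := by
  unfold w
  have h1 : (1 / 2 : ℝ) ^ k ≤ 1 := pow_le_one₀ (by norm_num) (by norm_num)
  have h2 : (0 : ℝ) ≤ (1 - (1 / 2) ^ k) / m := by
    apply div_nonneg (by linarith) (Nat.cast_nonneg m)
  split_ifs <;> positivity

lemma w_lower (k : ℕ) (x : Multiplicative (ZMod m)) : (1 - (1 / 2) ^ k) / m ≤ w m k x := by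
  unfold w
  have : (0 : ℝ) ≤ (1 / 2) ^ k * (if x = 1 then 1 else 0) := by split_ifs <;> positivity
  linarith

lemma pw_w [NeZero m] (k : ℕ) (x : Multiplicative (ZMod m)) : pw (w m 1) k x = w m k x := by
  have h := pw_mix (G := Multiplicative (ZMod m)) (fun x => if x = 1 then (1 : ℝ) else 0)
    (by simp) (1 / 2) k x
  have hc : (Fintype.card (Multiplicative (ZMod m)) : ℝ) = m := by
    rw [Fintype.card_multiplicative, ZMod.card]
  rw [hc, pw_delta] at h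
  have h2 : (fun x : Multiplicative (ZMod m) => (1 - 1 / 2 : ℝ) * (if x = 1 then 1 else 0) + 1 / 2 / m)
      = w m 1 := by
    funext x; unfold w; norm_num
  rw [h2] at h
  rw [h]; unfold w; norm_num

lemma Q_sum [NeZero m] (k : ℕ) : ∑ g, Q m k g = 1 := by
  unfold Q
  have := Finset.prod_univ_sum (fun _ : Fin m => (univ : Finset (Multiplicative (ZMod m))))
    (fun _ x => w m k x)
  rw [Fintype.piFinset_univ] at this
  rw [← this]
  simp [w_sum]

lemma Q_nonneg (k : ℕ) (g : Fin m → Multiplicative (ZMod m)) : 0 ≤ Q m k g :=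
  Finset.prod_nonneg fun _ _ => w_nonneg _ _

lemma pw_st [NeZero m] (δ : ℝ) (k : ℕ) (g : Fin m → Multiplicative (ZMod m)) :
    pw (st m δ) k g = (1 - δ) ^ k * Q m k g + (1 - (1 - δ) ^ k) / (m : ℝ) ^ m := by
  have h := pw_mix (G := Fin m → Multiplicative (ZMod m)) (fun x => ∏ j, w m 1 (x j))
    (Q_sum 1) δ k g
  rw [card_G] at h
  have h2 : (fun x : Fin m → Multiplicative (ZMod m) => (1 - δ) * (∏ j, w m 1 (x j)) + δ / (m : ℝ) ^ m)
      = st m δ := rfl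
  rw [h2] at h
  rw [h, pw_prod]
  unfold Q
  simp only [pw_w]

/-- unmixed distance -/
noncomputable def d0 (m k : ℕ) [NeZero m] : ℝ :=
  (1 / 2 : ℝ) * ∑ g : Fin m → Multiplicative (ZMod m), |Q m k g - 1 / (m : ℝ) ^ m|

lemma dist_eq [NeZero m] (δ : ℝ) (hδ : δ ≤ 1) (k : ℕ) :
    (1 / 2 : ℝ) * ∑ g : Fin m → Multiplicative (ZMod m),
      |pw (st m δ) k g - 1 / (Fintype.card (Fin m → Multiplicative (ZMod m)) : ℝ)|
      = (1 - δ) ^ k * d0 m k := by
  unfold d0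
  rw [card_G]
  have h1 : ∀ g : Fin m → Multiplicative (ZMod m), |pw (st m δ) k g - 1 / (m : ℝ) ^ m|
      = (1 - δ) ^ k * |Q m k g - 1 / (m : ℝ) ^ m| := by
    intro g
    rw [pw_st]
    have h2 : (1 - δ) ^ k * Q m k g + (1 - (1 - δ) ^ k) / (m : ℝ) ^ m - 1 / (m : ℝ) ^ m
      = (1 - δ) ^ k * (Q m k g - 1 / (m : ℝ) ^ m) := by ring
    rw [h2, abs_mul, abs_of_nonneg (pow_nonneg (by linarith) k)]
  simp only [h1]
  rw [← Finset.mul_sum]
  ring

lemma unif_sum [NeZero m] : ∑ _g : Fin m → Multiplicative (ZMod m), 1 / (m : ℝ) ^ m = 1 := by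
  have hm : (m : ℝ) ≠ 0 := by exact_mod_cast NeZero.ne m
  rw [Finset.sum_const, Finset.card_univ, nsmul_eq_mul, card_G]
  field_simp

lemma d0_le_one [NeZero m] (k : ℕ) : d0 m k ≤ 1 := by
  unfold d0
  have h1 : ∑ g : Fin m → Multiplicative (ZMod m), |Q m k g - 1 / (m : ℝ) ^ m| ≤
      ∑ g : Fin m → Multiplicative (ZMod m), (Q m k g + 1 / (m : ℝ) ^ m) := by
    refine Finset.sum_le_sum fun g _ => ?_
    have h2 := Q_nonneg k g
    have h3 : (0 : ℝ) ≤ 1 / (m : ℝ) ^ m := by positivity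
    rw [abs_le]; constructor <;> linarith
  rw [Finset.sum_add_distrib, Q_sum, unif_sum] at h1
  linarith

lemma d0_nonneg [NeZero m] (k : ℕ) : 0 ≤ d0 m k := by
  unfold d0
  have : 0 ≤ ∑ g : Fin m → Multiplicative (ZMod m), |Q m k g - 1 / (m : ℝ) ^ m| :=
    Finset.sum_nonneg fun _ _ => abs_nonneg _
  linarith

lemma d0_upper [NeZero m] (k : ℕ) : d0 m k ≤ m * (1 / 2) ^ k := by
  have hm : (0 : ℝ) < m := by exact_mod_cast Nat.pos_of_ne_zero (NeZero.ne m)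
  have hk : (1 / 2 : ℝ) ^ k ≤ 1 := pow_le_one₀ (by norm_num) (by norm_num)
  have hk0 : (0 : ℝ) < (1 / 2) ^ k := by positivity
  set c : ℝ := 1 - (1 - (1 / 2) ^ k) ^ m with hc
  have hc0 : 0 ≤ c := by
    have : (1 - (1 / 2 : ℝ) ^ k) ^ m ≤ 1 := pow_le_one₀ (by linarith) (by linarith)
    linarith
  have hc1 : c ≤ m * (1 / 2) ^ k := by
    have := one_add_mul_le_pow (a := -(1 / 2 : ℝ) ^ k) (by linarith) m
    have h2 : (1 + -(1 / 2 : ℝ) ^ k) = 1 - (1 / 2) ^ k := by ring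
    rw [h2] at this
    rw [hc]; linarith
  refine le_trans ?_ hc1
  have hQ : ∀ g : Fin m → Multiplicative (ZMod m), (1 - c) / (m : ℝ) ^ m ≤ Q m k g := by
    intro g
    have h3 : (1 - c) / (m : ℝ) ^ m = ∏ _j : Fin m, (1 - (1 / 2) ^ k) / (m : ℝ) := by
      rw [Finset.prod_const, Finset.card_univ, Fintype.card_fin, div_pow, hc]
      ring
    rw [h3]
    exact Finset.prod_le_prod (fun _ _ => div_nonneg (by linarith) hm.le)
      (fun j _ => w_lower k (g j))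
  unfold d0
  have h1 : ∑ g : Fin m → Multiplicative (ZMod m), |Q m k g - 1 / (m : ℝ) ^ m| ≤
      ∑ g : Fin m → Multiplicative (ZMod m),
        ((Q m k g - 1 / (m : ℝ) ^ m) + 2 * c * (1 / (m : ℝ) ^ m)) := by
    refine Finset.sum_le_sum fun g _ => ?_
    have h2 := hQ g
    have h4 : (1 - c) / (m : ℝ) ^ m = 1 / (m : ℝ) ^ m - c * (1 / (m : ℝ) ^ m) := by ring
    rw [h4] at h2
    have h5 : 0 ≤ c * (1 / (m : ℝ) ^ m) := by positivity
    rw [abs_le]; constructor <;> linarith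
  rw [Finset.sum_add_distrib, Finset.sum_sub_distrib, Q_sum, unif_sum, ← Finset.mul_sum,
    unif_sum] at h1
  linarith

lemma d0_lower [NeZero m] (k : ℕ) :
    (1 / 2 : ℝ) * ((1 - 1 / m) ^ m * (1 - (1 - (1 / 2) ^ k) ^ m)) ≤ d0 m k := by
  have hm : (0 : ℝ) < m := by exact_mod_cast Nat.pos_of_ne_zero (NeZero.ne m)
  unfold d0
  apply mul_le_mul_of_nonneg_left _ (by norm_num)
  set E : Finset (Fin m → Multiplicative (ZMod m)) :=
    Fintype.piFinset (fun _ => univ.erase 1) with hE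
  have hcard : (E.card : ℝ) = ((m : ℝ) - 1) ^ m := by
    have h1 : (univ.erase (1 : Multiplicative (ZMod m))).card = m - 1 := by
      rw [Finset.card_erase_of_mem (Finset.mem_univ _), Finset.card_univ,
        Fintype.card_multiplicative, ZMod.card]
    rw [hE, Fintype.card_piFinset]
    simp only [h1, Finset.prod_const, Finset.card_univ, Fintype.card_fin]
    have h2 : 1 ≤ m := Nat.pos_of_ne_zero (NeZero.ne m)
    push_cast [h2]
    rfl
  have hQE : ∀ g ∈ E, Q m k g = (1 - (1 / 2) ^ k) ^ m / (m : ℝ) ^ m := by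
    intro g hg
    rw [hE, Fintype.mem_piFinset] at hg
    unfold Q
    have h1 : ∀ j, w m k (g j) = (1 - (1 / 2) ^ k) / (m : ℝ) := by
      intro j
      have h2 : g j ≠ 1 := (Finset.mem_erase.mp (hg j)).1
      unfold w; rw [if_neg h2]; ring
    simp only [h1, Finset.prod_const, Finset.card_univ, Fintype.card_fin, div_pow]
  calc (1 - 1 / (m : ℝ)) ^ m * (1 - (1 - (1 / 2) ^ k) ^ m)
      = ∑ g ∈ E, (1 / (m : ℝ) ^ m - Q m k g) := by
        rw [Finset.sum_congr rfl (fun g hg => by rw [hQE g hg]), Finset.sum_const, nsmul_eq_mul,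
          hcard]
        have h3 : (1 - 1 / (m : ℝ)) ^ m = ((m : ℝ) - 1) ^ m / (m : ℝ) ^ m := by
          rw [← div_pow]; congr 1; field_simp
        rw [h3]
        ring
    _ ≤ ∑ g ∈ E, |Q m k g - 1 / (m : ℝ) ^ m| := by
        refine Finset.sum_le_sum fun g _ => ?_
        rw [abs_sub_comm]; exact le_abs_self _
    _ ≤ ∑ g : Fin m → Multiplicative (ZMod m), |Q m k g - 1 / (m : ℝ) ^ m| :=
        Finset.sum_le_sum_of_subset_of_nonneg (Finset.subset_univ _) fun _ _ _ => abs_nonneg _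

lemma quarter (n : ℕ) (hn : 1 ≤ n) : (1 / 4 : ℝ) ≤ (1 - 1 / ((2 * n : ℕ) : ℝ)) ^ (2 * n) := by
  have hnr : (1 : ℝ) ≤ n := by exact_mod_cast hn
  have h1 := one_add_mul_le_pow (a := -(1 / ((2 * n : ℕ) : ℝ))) (by
    have : 1 / ((2 * n : ℕ) : ℝ) ≤ 1 := by
      rw [div_le_one (by positivity)]; push_cast; linarith
    linarith) n
  have h2 : 1 + (n : ℝ) * -(1 / ((2 * n : ℕ) : ℝ)) = 1 / 2 := by
    push_cast; field_simp; norm_num
  rw [h2] at h1
  have h3 : (1 - 1 / ((2 * n : ℕ) : ℝ)) ^ (2 * n) = ((1 + -(1 / ((2 * n : ℕ) : ℝ))) ^ n) ^ 2 := by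
    rw [← pow_mul, mul_comm n 2]; ring_nf
  rw [h3]
  nlinarith

lemma d0_lower' (K k : ℕ) (hK : 1 ≤ K) (hk : k ≤ K) [NeZero (2 ^ K)] :
    (1 / 16 : ℝ) ≤ d0 (2 ^ K) k := by
  refine le_trans ?_ (d0_lower k)
  obtain ⟨L, rfl⟩ : ∃ L, K = L + 1 := ⟨K - 1, by omega⟩
  have h1 : (1 / 4 : ℝ) ≤ (1 - 1 / ((2 ^ (L + 1) : ℕ) : ℝ)) ^ (2 ^ (L + 1)) := by
    have := quarter (2 ^ L) (Nat.one_le_two_pow)
    rw [show 2 * 2 ^ L = 2 ^ (L + 1) by ring] at this
    exact this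
  set x : ℝ := (1 / 2) ^ (L + 1) with hx
  have hx0 : 0 < x := by positivity
  have hx1 : x ≤ 1 := pow_le_one₀ (by norm_num) (by norm_num)
  have hkx : x ≤ (1 / 2) ^ k := pow_le_pow_of_le_one (by norm_num) (by norm_num) hk
  have hk1 : (1 / 2 : ℝ) ^ k ≤ 1 := pow_le_one₀ (by norm_num) (by norm_num)
  have h2 : (1 - (1 / 2 : ℝ) ^ k) ^ (2 ^ (L + 1)) ≤ (1 - x) ^ (2 ^ (L + 1)) :=
    pow_le_pow_left₀ (by linarith) (by linarith) _
  have h3 : (1 - x) ^ (2 ^ (L + 1)) * (1 + x) ^ (2 ^ (L + 1)) ≤ 1 := by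
    rw [← mul_pow]
    apply pow_le_one₀
    · nlinarith
    · nlinarith
  have h4 := one_add_mul_le_pow (a := x) (by linarith) (2 ^ (L + 1))
  have h5 : (((2 ^ (L + 1) : ℕ)) : ℝ) * x = 1 := by
    rw [hx]; push_cast; rw [← mul_pow]; norm_num
  rw [h5] at h4
  have h6 : (0 : ℝ) ≤ (1 - x) ^ (2 ^ (L + 1)) := pow_nonneg (by linarith) _
  have h7 : (1 - x) ^ (2 ^ (L + 1)) ≤ 1 / 2 := by nlinarith
  have h8 : (1 / 2 : ℝ) ≤ 1 - (1 - (1 / 2 : ℝ) ^ k) ^ (2 ^ (L + 1)) := by linarith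
  nlinarith

end Pool.Agent.W34.PC
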