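import Mathlib
import Pool.Agent.W34.PC.Dist

set_option autoImplicit false
open Filter Topology

namespace Pool.Agent.W34.PC

/-- A random walk on a finite group, given by the group and the law `p` of a step. -/
structure Walk where
  /-- the group -/
  G : Type
  [grp : Group G]
  [fin : Fintype G]
  [dec : DecidableEq G]
  /-- the law of a step -/
  p : G → ℝ
  nonneg : ∀ g, 0 ≤ p g
  sum_one : ∑ g, p g = 1

attribute [instance] Walk.grp Walk.fin Walk.dec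

/-- The total variation distance between the law of the walk after `k` steps (the `k`-fold
convolution of `p`) and the uniform law. -/
noncomputable def Walk.dist (F : Walk) (k : ℕ) : ℝ :=
  (1 / 2 : ℝ) * ∑ g : F.G, |pw F.p k g - 1 / (Fintype.card F.G : ℝ)|

/-- The family presents a precut-off. -/
def Precutoff (F : ℕ → Walk) : Prop :=
  ∃ t : ℕ → ℝ, Tendsto t atTop atTop ∧ ∃ a b : ℝ, 0 < a ∧ a < b ∧
    Tendsto (fun n => (F n).dist ⌊b * t n⌋₊) atTop (𝓝 0) ∧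
    ∃ L : ℝ, 0 < L ∧ Tendsto (fun n => (F n).dist ⌊a * t n⌋₊) atTop (𝓝 L)

/-- The family presents a cut-off. -/
def Cutoff (F : ℕ → Walk) : Prop :=
  ∃ t : ℕ → ℝ, Tendsto t atTop atTop ∧ ∀ ε : ℝ, 0 < ε → ε < 1 →
    Tendsto (fun n => (F n).dist ⌊(1 + ε) * t n⌋₊) atTop (𝓝 0) ∧
    Tendsto (fun n => (F n).dist ⌊(1 - ε) * t n⌋₊) atTop (𝓝 1)

lemma hKpos (n : ℕ) : (2 : ℝ) ≤ ((2 * (n + 1) : ℕ) : ℝ) := by
  have : 2 ≤ 2 * (n + 1) := by omega
  exact_mod_cast this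

lemma hδ0 (n : ℕ) : 0 ≤ 1 / ((2 * (n + 1) : ℕ) : ℝ) := by positivity

lemma hδ1 (n : ℕ) : 1 / ((2 * (n + 1) : ℕ) : ℝ) ≤ 1 / 2 :=
  one_div_le_one_div_of_le (by norm_num) (hKpos n)

instance hne (n : ℕ) : NeZero (2 ^ (2 * (n + 1))) := ⟨by positivity⟩

/-- The family of the example. -/
noncomputable def ex (n : ℕ) : Walk where
  G := Fin (2 ^ (2 * (n + 1))) → Multiplicative (ZMod (2 ^ (2 * (n + 1))))
  p := st (2 ^ (2 * (n + 1))) (1 / ((2 * (n + 1) : ℕ) : ℝ))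
  nonneg := by
    intro g
    have h1 := hδ0 n
    have h2 := hδ1 n
    have h3 : 0 ≤ ∏ j, w (2 ^ (2 * (n + 1))) 1 (g j) :=
      Finset.prod_nonneg fun _ _ => w_nonneg _ _
    have h4 : 0 ≤ 1 / ((2 * (n + 1) : ℕ) : ℝ) /
      (((2 ^ (2 * (n + 1)) : ℕ) : ℝ) ^ (2 ^ (2 * (n + 1)))) := by positivity
    have h5 := mul_nonneg (show 0 ≤ 1 - 1 / ((2 * (n + 1) : ℕ) : ℝ) by linarith) h3
    exact add_nonneg h5 h4
  sum_one := by
    have h1 : ∀ g, st (2 ^ (2 * (n + 1))) (1 / ((2 * (n + 1) : ℕ) : ℝ)) g =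
        (1 - 1 / ((2 * (n + 1) : ℕ) : ℝ)) * Q (2 ^ (2 * (n + 1))) 1 g
        + 1 / ((2 * (n + 1) : ℕ) : ℝ) * (1 / (((2 ^ (2 * (n + 1)) : ℕ) : ℝ) ^ (2 ^ (2 * (n + 1))))) := by
      intro g
      simp only [st, Q]
      ring
    simp only [h1]
    rw [Finset.sum_add_distrib, ← Finset.mul_sum, ← Finset.mul_sum, Q_sum, unif_sum]
    ring

lemma ex_dist (n k : ℕ) : (ex n).dist k =
    (1 - 1 / ((2 * (n + 1) : ℕ) : ℝ)) ^ k * d0 (2 ^ (2 * (n + 1))) k :=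
  dist_eq _ (by have := hδ1 n; linarith) k

lemma ex_low (n k : ℕ) (hk : k ≤ 2 * (n + 1)) : (1 / 64 : ℝ) ≤ (ex n).dist k := by
  rw [ex_dist]
  have h1 := d0_lower' (2 * (n + 1)) k (by omega) hk
  have h2 := quarter (n + 1) (by omega)
  have h3 : (1 - 1 / ((2 * (n + 1) : ℕ) : ℝ)) ^ (2 * (n + 1)) ≤
      (1 - 1 / ((2 * (n + 1) : ℕ) : ℝ)) ^ k := by
    apply pow_le_pow_of_le_one _ _ hk
    · have := hδ1 n; linarith
    · have := hδ0 n; linarith
  nlinarith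

lemma ex_nonneg (n k : ℕ) : 0 ≤ (ex n).dist k := by
  unfold Walk.dist
  exact mul_nonneg (by norm_num) (Finset.sum_nonneg fun _ _ => abs_nonneg _)

lemma ex_le_one (n k : ℕ) : (ex n).dist k ≤ 1 := by
  rw [ex_dist]
  have h4 := d0_nonneg (m := 2 ^ (2 * (n + 1))) k
  have h5 := d0_le_one (m := 2 ^ (2 * (n + 1))) k
  have h6 : (1 - 1 / ((2 * (n + 1) : ℕ) : ℝ)) ^ k ≤ 1 := by
    apply pow_le_one₀
    · have := hδ1 n; linarith
    · have := hδ0 n; linarith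
  nlinarith

lemma ex_up (n : ℕ) : (ex n).dist (2 * (2 * (n + 1))) ≤ (1 / 2) ^ n := by
  rw [ex_dist]
  have h3 := d0_upper (m := 2 ^ (2 * (n + 1))) (2 * (2 * (n + 1)))
  have h4 := d0_nonneg (m := 2 ^ (2 * (n + 1))) (2 * (2 * (n + 1)))
  have h5 : (1 - 1 / ((2 * (n + 1) : ℕ) : ℝ)) ^ (2 * (2 * (n + 1))) ≤ 1 := by
    apply pow_le_one₀
    · have := hδ1 n; linarith
    · have := hδ0 n; linarith
  have h6 : (((2 ^ (2 * (n + 1)) : ℕ)) : ℝ) * (1 / 2) ^ (2 * (2 * (n + 1)))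
      = (1 / 2) ^ (2 * (n + 1)) := by
    push_cast
    rw [show 2 * (2 * (n + 1)) = 2 * (n + 1) + 2 * (n + 1) by ring, pow_add, ← mul_assoc,
      ← mul_pow]
    norm_num
  rw [h6] at h3
  have h7 : (1 / 2 : ℝ) ^ (2 * (n + 1)) ≤ (1 / 2) ^ n :=
    pow_le_pow_of_le_one (by norm_num) (by norm_num) (by omega)
  have h8 := mul_le_mul_of_nonneg_right h5 h4
  linarith

lemma ex_mid (n j : ℕ) (hj1 : ((2 * (n + 1) : ℕ) : ℝ) / 8 ≤ j) :
    (ex n).dist j ≤ Real.exp (-(1 / 8 : ℝ)) := by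
  rw [ex_dist]
  have hd1 := d0_le_one (m := 2 ^ (2 * (n + 1))) j
  have hd0 := d0_nonneg (m := 2 ^ (2 * (n + 1))) j
  have hpow : (1 - 1 / ((2 * (n + 1) : ℕ) : ℝ)) ^ j ≤ Real.exp (-(1 / 8 : ℝ)) := by
    have h5 : 1 - 1 / ((2 * (n + 1) : ℕ) : ℝ) ≤ Real.exp (-(1 / ((2 * (n + 1) : ℕ) : ℝ))) :=
      Real.one_sub_le_exp_neg _
    calc (1 - 1 / ((2 * (n + 1) : ℕ) : ℝ)) ^ j
        ≤ (Real.exp (-(1 / ((2 * (n + 1) : ℕ) : ℝ)))) ^ j := by
          apply pow_le_pow_left₀ _ h5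
          have := hδ1 n; linarith
      _ = Real.exp (-(1 / ((2 * (n + 1) : ℕ) : ℝ)) * j) := by
          rw [← Real.exp_nat_mul]; ring_nf
      _ ≤ Real.exp (-(1 / 8 : ℝ)) := by
          apply Real.exp_le_exp.mpr
          have hKp := hKpos n
          have h6 : (1 / 8 : ℝ) ≤ 1 / ((2 * (n + 1) : ℕ) : ℝ) * j := by
            rw [one_div_mul_eq_div, le_div_iff₀ (by linarith)]
            linarith
          linarith
  have hexp0 := Real.exp_pos (-(1 / 8 : ℝ))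
  nlinarith [mul_le_mul hpow hd1 hd0 hexp0.le]

lemma ex_comm (n : ℕ) (x y : (ex n).G) : x * y = y * x := by
  show (x : Fin (2 ^ (2 * (n + 1))) → Multiplicative (ZMod (2 ^ (2 * (n + 1))))) * y = y * x
  exact mul_comm (G := Fin (2 ^ (2 * (n + 1))) → Multiplicative (ZMod (2 ^ (2 * (n + 1))))) x y

lemma ex_symm (n : ℕ) (x : (ex n).G) : (ex n).p x⁻¹ = (ex n).p x := by
  show st (2 ^ (2 * (n + 1))) (1 / ((2 * (n + 1) : ℕ) : ℝ)) x⁻¹ =
    st (2 ^ (2 * (n + 1))) (1 / ((2 * (n + 1) : ℕ) : ℝ)) x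
  unfold st
  have h : ∀ j : Fin (2 ^ (2 * (n + 1))), w (2 ^ (2 * (n + 1))) 1 (x⁻¹ j) =
      w (2 ^ (2 * (n + 1))) 1 (x j) := by
    intro j
    unfold w
    have : (x⁻¹ j = 1) ↔ (x j = 1) := by
      show (x j)⁻¹ = 1 ↔ x j = 1
      exact inv_eq_one
    simp only [this]
  congr 2
  exact Finset.prod_congr rfl fun j _ => h j

theorem main : ∃ F : ℕ → Walk, (∀ n, ∀ x y : (F n).G, x * y = y * x) ∧
    (∀ n, ∀ x : (F n).G, (F n).p x⁻¹ = (F n).p x) ∧ Precutoff F ∧ ¬ Cutoff F := by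
  obtain ⟨L, hL, φ, hφ, hlim⟩ := isCompact_Icc.tendsto_subseq
    (x := fun n => (ex n).dist (2 * (n + 1))) (s := Set.Icc (1 / 64 : ℝ) 1)
    (fun n => ⟨ex_low n _ le_rfl, ex_le_one n _⟩)
  have hφn : ∀ n, n ≤ φ n := fun n => hφ.le_apply
  refine ⟨fun n => ex (φ n), fun n => ex_comm _, fun n => ex_symm _, ?_, ?_⟩
  · refine ⟨fun n => ((2 * (φ n + 1) : ℕ) : ℝ), ?_, 1, 2, by norm_num, by norm_num, ?_, L, ?_, ?_⟩
    · have h1 : Tendsto (fun n : ℕ => 2 * (φ n + 1)) atTop atTop :=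
        tendsto_atTop_mono (fun n => by have := hφn n; simp only [id]; omega) tendsto_id
      exact tendsto_natCast_atTop_atTop.comp h1
    · have h1 : ∀ n : ℕ, ⌊(2 : ℝ) * ((2 * (φ n + 1) : ℕ) : ℝ)⌋₊ = 2 * (2 * (φ n + 1)) := by
        intro n
        have : (2 : ℝ) * ((2 * (φ n + 1) : ℕ) : ℝ) = ((2 * (2 * (φ n + 1)) : ℕ) : ℝ) := by
          push_cast; ring
        rw [this, Nat.floor_natCast]
      simp only [h1]
      refine squeeze_zero (fun n => ex_nonneg _ _) (fun n => (ex_up (φ n)).trans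
        (pow_le_pow_of_le_one (by norm_num) (by norm_num) (hφn n)))
        (tendsto_pow_atTop_nhds_zero_of_lt_one (by norm_num) (by norm_num))
    · linarith [hL.1]
    · have h1 : ∀ n : ℕ, ⌊(1 : ℝ) * ((2 * (φ n + 1) : ℕ) : ℝ)⌋₊ = 2 * (φ n + 1) := by
        intro n
        rw [one_mul, Nat.floor_natCast]
      simp only [h1]
      exact hlim
  · rintro ⟨s, hs, hs2⟩
    obtain ⟨h1, h2⟩ := hs2 (1 / 2) (by norm_num) (by norm_num)
    have hev1 := h1.eventually (gt_mem_nhds (show (0 : ℝ) < 1 / 64 by norm_num))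
    have hexp : Real.exp (-(1 / 8 : ℝ)) < 1 := by
      rw [Real.exp_lt_one_iff]; norm_num
    have hev2 := h2.eventually (lt_mem_nhds hexp)
    obtain ⟨n, hn1, hn2, hn3⟩ := (hev1.and (hev2.and (eventually_ge_atTop 10))).exists
    have hK : 2 * (φ n + 1) < ⌊(1 + 1 / 2) * s n⌋₊ := by
      by_contra hcon
      push Not at hcon
      have := ex_low (φ n) _ hcon
      linarith
    have hK2 : ((2 * (φ n + 1) : ℕ) : ℝ) < (1 + 1 / 2) * s n := by
      by_contra hcon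
      push Not at hcon
      have h5 := Nat.floor_le_of_le hcon
      omega
    have hfl := Nat.lt_floor_add_one ((1 - 1 / 2) * s n)
    set j := ⌊(1 - 1 / 2) * s n⌋₊ with hj
    have hj1 : ((2 * (φ n + 1) : ℕ) : ℝ) / 8 ≤ j := by
      have h10 : (10 : ℝ) ≤ φ n := by
        have := hφn n
        exact_mod_cast (hn3.trans this)
      push_cast at hK2 ⊢
      linarith
    have := ex_mid (φ n) j hj1
    linarith

end Pool.Agent.W34.PC
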