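import Mathlib

set_option autoImplicit false

namespace Pool.Agent.W34.PC

open Finset

variable {G : Type} [Group G] [Fintype G] [DecidableEq G]

/-- convolution power -/
def pw (p : G → ℝ) (k : ℕ) (g : G) : ℝ :=
  ∑ f ∈ (Finset.univ : Finset (Fin k → G)).filter (fun f => (List.ofFn f).prod = g),
    ∏ i, p (f i)

lemma pw_zero (p : G → ℝ) (g : G) : pw p 0 g = if g = 1 then 1 else 0 := by
  unfold pw
  rw [Finset.sum_filter]
  simp only [List.ofFn_zero, List.prod_nil, Finset.univ_eq_empty, Finset.prod_empty]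
  simp [eq_comm]

lemma pw_succ (p : G → ℝ) (k : ℕ) (g : G) : pw p (k + 1) g = ∑ h, p h * pw p k (h⁻¹ * g) := by
  unfold pw
  rw [Finset.sum_filter]
  rw [← Equiv.sum_comp (Fin.consEquiv (fun _ : Fin (k + 1) => G)), Fintype.sum_prod_type]
  refine Finset.sum_congr rfl fun h _ => ?_
  rw [Finset.sum_filter, Finset.mul_sum]
  refine Finset.sum_congr rfl fun f _ => ?_
  rw [List.ofFn_succ, List.prod_cons, Fin.prod_univ_succ]
  simp only [Fin.consEquiv_apply, Fin.cons_zero, Fin.cons_succ]
  have : (h * (List.ofFn f).prod = g) ↔ ((List.ofFn f).prod = h⁻¹ * g) := by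
    constructor
    · intro h1; rw [← h1]; group
    · intro h1; rw [h1]; group
  simp only [this]
  split_ifs <;> simp

lemma sum_shift (F : G → ℝ) (g : G) : ∑ h : G, F (h⁻¹ * g) = ∑ x : G, F x := by
  exact Equiv.sum_comp ((Equiv.inv G).trans (Equiv.mulRight g)) F

lemma pw_sum (p : G → ℝ) (hp : ∑ g, p g = 1) (k : ℕ) : ∑ g, pw p k g = 1 := by
  induction k with
  | zero => simp [pw_zero]
  | succ k ih =>
    simp only [pw_succ]
    rw [Finset.sum_comm]
    have : ∀ h : G, ∑ g : G, p h * pw p k (h⁻¹ * g) = p h := by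
      intro h
      have h2 : ∑ i, pw p k (h⁻¹ * i) = ∑ x, pw p k x :=
        Equiv.sum_comp (Equiv.mulLeft h⁻¹) (fun x => pw p k x)
      rw [← Finset.mul_sum, h2, ih, mul_one]
    simp only [this]
    exact hp

/-- mixture with the uniform law -/
lemma pw_mix (μ : G → ℝ) (hμ : ∑ g, μ g = 1) (δ : ℝ) (k : ℕ) (g : G) :
    pw (fun x => (1 - δ) * μ x + δ / (Fintype.card G : ℝ)) k g =
      (1 - δ) ^ k * pw μ k g + (1 - (1 - δ) ^ k) / (Fintype.card G : ℝ) := by
  have hN : (Fintype.card G : ℝ) ≠ 0 := by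
    have : 0 < Fintype.card G := Fintype.card_pos
    positivity
  induction k generalizing g with
  | zero => simp [pw_zero]
  | succ k ih =>
    rw [pw_succ, pw_succ]
    simp only [ih]
    have h1 : ∀ h : G, ((1 - δ) * μ h + δ / (Fintype.card G : ℝ)) *
        ((1 - δ) ^ k * pw μ k (h⁻¹ * g) + (1 - (1 - δ) ^ k) / (Fintype.card G : ℝ))
        = (1 - δ) ^ (k + 1) * (μ h * pw μ k (h⁻¹ * g))
          + ((1 - δ) * ((1 - (1 - δ) ^ k) / (Fintype.card G : ℝ))) * μ h
          + (δ / (Fintype.card G : ℝ) * (1 - δ) ^ k) * pw μ k (h⁻¹ * g)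
          + δ / (Fintype.card G : ℝ) * ((1 - (1 - δ) ^ k) / (Fintype.card G : ℝ)) := by
      intro h; ring
    simp only [h1]
    rw [Finset.sum_add_distrib, Finset.sum_add_distrib, Finset.sum_add_distrib,
      ← Finset.mul_sum, ← Finset.mul_sum, ← Finset.mul_sum, hμ, sum_shift (fun x => pw μ k x),
      pw_sum μ hμ, Finset.sum_const, Finset.card_univ, nsmul_eq_mul]
    field_simp
    ring

lemma pw_delta (k : ℕ) (g : G) :
    pw (fun x : G => if x = 1 then (1 : ℝ) else 0) k g = if g = 1 then 1 else 0 := by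
  induction k generalizing g with
  | zero => exact pw_zero _ _
  | succ k ih =>
    rw [pw_succ]
    simp only [ih]
    rw [Finset.sum_eq_single (1 : G)]
    · simp
    · intro h _ hh; simp [hh]
    · intro h; exact absurd (Finset.mem_univ _) h

/-- convolution powers of product laws -/
lemma pw_prod {m : ℕ} (ν : G → ℝ) (k : ℕ) (g : Fin m → G) :
    pw (fun x : Fin m → G => ∏ j, ν (x j)) k g = ∏ j, pw ν k (g j) := by
  induction k generalizing g with
  | zero =>
    rw [pw_zero]
    simp only [pw_zero]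
    rw [Finset.prod_ite_zero]
    simp [funext_iff]
  | succ k ih =>
    rw [pw_succ]
    simp only [ih, pw_succ]
    rw [Finset.prod_univ_sum, Fintype.piFinset_univ]
    refine Finset.sum_congr rfl fun h _ => ?_
    rw [← Finset.prod_mul_distrib]
    rfl

end Pool.Agent.W34.PC
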